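import Pool.Agent.Q290.SC.Stm

set_option autoImplicit false

namespace Pool.Agent.Q295.SC

open Pool.Agent.Q290.SC Pool.Agent.H29R2.MG

theorem num : S_NUM := by
  intro Q _ n hn hexp s h1 h2 h3 h10
  have hn' : (1 : ℤ) ≤ n := by exact_mod_cast hn
  generalize hq : 4 * (n : ℤ) = q at h1 h2 h3 ⊢
  have hA : ∀ b : ℤ, q ∣ b → s 1 b = 1 := by
    intro b hb
    have := h2 1 0 b (by simp) (dvd_zero _) isCoprime_one_left hb
    rw [zero_add, mul_one] at this
    rw [this, h10]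
  have hqa : ∀ a : ℤ, q ∣ a - 1 → IsCoprime q a := by
    rintro a ⟨j, hj⟩
    exact ⟨-j, 1, by linear_combination hj⟩
  have hB : ∀ a b b' : ℤ, q ∣ a - 1 → q ∣ b → q ∣ b' → IsCoprime a b' → a ∣ b - b' →
      s a b = s a b' := by
    rintro a b b' ha hb hb' hc ⟨t, ht⟩
    have hqt : q ∣ t := by
      have h5 : q ∣ a * t := by rw [← ht]; exact dvd_sub hb hb'
      exact (hqa a ha).dvd_of_dvd_mul_left h5
    have h6 := h2 a b' t ha hb' hc hqt
    rw [← h6]
    congr 1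
    linear_combination ht
  have hI1 : ∀ a : ℤ, q ∣ a - 1 → s a (1 - a) = 1 := by
    intro a ha
    have hd : q ∣ 1 - a := (dvd_sub_comm).mp ha
    have h5 := h1 a (1 - a) 1 ha hd ⟨1, 1, by ring⟩
    rw [← h5, show a + 1 * (1 - a) = 1 by ring]
    exact hA _ hd
  have hI2 : ∀ a : ℤ, q ∣ a - 1 → s a (a - 1) = 1 := by
    intro a ha
    have h5 := h1 a (a - 1) (-1) ha ha ⟨1, -1, by ring⟩
    rw [← h5, show a + -1 * (a - 1) = 1 by ring]
    exact hA _ ha
  intro a b ha hb hab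
  by_cases hb0 : b = 0
  · subst hb0
    have hu : IsUnit a := isCoprime_zero_right.mp hab
    rcases Int.isUnit_iff.mp hu with rfl | rfl
    · exact hA 0 (dvd_zero _)
    · exfalso
      have h5 := Int.le_of_dvd (by norm_num) ((dvd_neg.mpr ha))
      omega
  -- Dirichlet
  have hbn : b.natAbs ≠ 0 := Int.natAbs_ne_zero.mpr hb0
  have : NeZero b.natAbs := ⟨hbn⟩
  have hunit : IsUnit (((-a : ℤ)) : ZMod b.natAbs) := by
    rw [ZMod.coe_int_isUnit_iff_isCoprime]
    have h5 : IsCoprime b (-a) := hab.symm.neg_right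
    have h6 : IsCoprime |b| (-a) := by
      rcases abs_choice b with h | h
      · rw [h]; exact h5
      · rw [h]; exact h5.neg_left
    rwa [Int.natCast_natAbs]
  obtain ⟨r, hr2, hrp, hr⟩ := Nat.forall_exists_prime_gt_and_eq_mod hunit 2
  have hdiv : b ∣ (r : ℤ) + a := by
    have h5 : (((r : ℤ) + a : ℤ) : ZMod b.natAbs) = 0 := by
      push_cast
      rw [hr]
      push_cast
      ring
    rw [ZMod.intCast_zmod_eq_zero_iff_dvd] at h5
    exact Int.natAbs_dvd.mp h5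
  obtain ⟨t, ht⟩ := hdiv
  have hra : -(r : ℤ) = a + (-t) * b := by linear_combination -ht
  have hcop : IsCoprime (-(r : ℤ)) b := by
    rw [hra]
    exact hab.add_mul_right_left (-t)
  have hstep : s a b = s (-(r : ℤ)) b := by
    rw [hra]
    exact (h1 a b (-t) ha hb hab).symm
  rw [hstep]
  have har0 : q ∣ -(r : ℤ) - 1 := by
    rw [hra, show a + -t * b - 1 = (a - 1) + (-t) * b by ring]
    exact dvd_add ha (Dvd.dvd.mul_left hb _)
  -- r + 1 = 4 n k
  have : Fact r.Prime := ⟨hrp⟩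
  obtain ⟨k', hk'⟩ := har0
  have hk0 : (r : ℤ) + 1 = 4 * n * (-k') := by rw [← hq] at hk'; linear_combination -hk'
  have hkpos : 0 < -k' := by
    by_contra hneg
    have : 4 * (n : ℤ) * (-k') ≤ 0 := by
      apply mul_nonpos_of_nonneg_of_nonpos (by positivity)
      omega
    have hr0 : (0 : ℤ) ≤ r := by positivity
    omega
  obtain ⟨k, hk⟩ : ∃ k : ℕ, (k : ℤ) = -k' := ⟨(-k').toNat, Int.toNat_of_nonneg hkpos.le⟩
  have hk1 : 1 ≤ k := by omega
  have hrk : r + 1 = 4 * (n * k) := by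
    have : ((r + 1 : ℕ) : ℤ) = ((4 * (n * k) : ℕ) : ℤ) := by
      push_cast
      rw [hk0, hk]
      ring
    exact_mod_cast this
  have hnk : 1 ≤ n * k := Nat.mul_pos hn hk1
  set m : ℕ := 2 * (n * k) - 1 with hm
  have hm1 : 1 ≤ m := by omega
  have hr2m : r - 1 = 2 * m := by omega
  have hrdiv : r / 2 = m := by omega
  have hmodd : Odd m := ⟨n * k - 1, by omega⟩
  have hmn : Nat.gcd m n = 1 := by
    have h5 : Nat.gcd m n ∣ 2 * (n * k) := Dvd.dvd.mul_left (Dvd.dvd.mul_right (Nat.gcd_dvd_right _ _) _) _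
    have h6 : Nat.gcd m n ∣ m := Nat.gcd_dvd_left _ _
    have h7 : Nat.gcd m n ∣ 2 * (n * k) - m := Nat.dvd_sub h5 h6
    have h8 : 2 * (n * k) - m = 1 := by omega
    rw [h8] at h7
    exact Nat.dvd_one.mp h7
  set A : ℤ := -(r : ℤ) with hAdef
  have har : q ∣ A - 1 := ⟨k', hk'⟩
  -- (iv)
  have hiv : ∀ w : ℤ, q ∣ w → IsCoprime A w → ∀ b : ℤ, q ∣ b → IsCoprime A b →
      s A (b * w ^ 2) = s A b := by
    intro w hw hcw
    obtain ⟨c, hc⟩ := h3 A w har hw hcw
    have hcw2 : IsCoprime A (w ^ 2) := hcw.pow_right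
    have hqw2 : q ∣ w ^ 2 := dvd_pow hw (by norm_num)
    have hd : q ∣ 1 - A := (dvd_sub_comm).mp har
    have e1 : s A ((1 - A) * w ^ 2) = s A (w ^ 2) :=
      hB A _ _ har (Dvd.dvd.mul_right hd _) hqw2 hcw2 ⟨-w ^ 2, by ring⟩
    have e2 : (1 : Q) = c * s A (w ^ 2) := by
      rw [← e1, ← hc (1 - A) hd ⟨1, 1, by ring⟩, hI1 A har]
    have e3 : ∀ b : ℤ, q ∣ b → IsCoprime A b → s A (b * w ^ 2) = s A (w ^ 2) * s A b := by
      intro b hb hAb
      have h5 := hc b hb hAb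
      have h6 : c = (s A (w ^ 2))⁻¹ := eq_inv_of_mul_eq_one_left e2.symm
      rw [h5, h6]
      group
    have e4 : ∀ l : ℕ, s A (w ^ (2 * (l + 1))) = s A (w ^ 2) ^ (l + 1) := by
      intro l
      induction l with
      | zero => simp
      | succ l ih =>
        have h5 := e3 (w ^ (2 * (l + 1))) (dvd_pow hw (by omega)) hcw.pow_right
        rw [show w ^ (2 * (l + 1 + 1)) = w ^ (2 * (l + 1)) * w ^ 2 by ring, h5, ih, pow_succ' _ (l + 1)]
    have e5 : s A (w ^ 2) ^ m = 1 := by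
      obtain ⟨l, hl⟩ : ∃ l, m = l + 1 := ⟨m - 1, by omega⟩
      rw [hl, ← e4 l, ← hl, ← hr2m]
      have hw0 : ((w : ℤ) : ZMod r) ≠ 0 := by
        intro h0
        rw [ZMod.intCast_zmod_eq_zero_iff_dvd] at h0
        have h6 : IsCoprime (r : ℤ) w := by
          have := hcw.neg_left
          rwa [hAdef, neg_neg] at this
        have h7 : IsUnit (r : ℤ) := h6.isUnit_of_dvd' dvd_rfl h0
        have h8 := Int.isUnit_iff.mp h7
        have h9 := hrp.two_le
        omega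
      have hf := ZMod.pow_card_sub_one_eq_one hw0
      have h6 : (r : ℤ) ∣ w ^ (r - 1) - 1 := by
        rw [← ZMod.intCast_zmod_eq_zero_iff_dvd]
        push_cast
        rw [hf]
        ring
      have h7 : A ∣ w ^ (r - 1) - (1 - A) := by
        rw [show w ^ (r - 1) - (1 - A) = (w ^ (r - 1) - 1) + A by ring]
        apply dvd_add _ dvd_rfl
        rw [hAdef]
        exact neg_dvd.mpr h6
      rw [hB A _ (1 - A) har (dvd_pow hw (by omega)) hd ⟨1, 1, by ring⟩ h7]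
      exact hI1 A har
    have e6 : s A (w ^ 2) = 1 := by
      have h5 := pow_gcd_eq_one.mpr ⟨e5, hexp (s A (w ^ 2))⟩
      rwa [hmn, pow_one] at h5
    intro b hb hAb
    rw [e3 b hb hAb, e6, one_mul]
  -- (v)
  have hcopr : IsCoprime (r : ℤ) b := by
    have := hcop.neg_left
    rwa [hAdef, neg_neg] at this
  have hnotunit : ¬ IsUnit (r : ℤ) := by
    intro h7
    have h8 := Int.isUnit_iff.mp h7
    have h9 := hrp.two_le
    omega
  have hb0' : ((b : ℤ) : ZMod r) ≠ 0 := by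
    intro h0
    rw [ZMod.intCast_zmod_eq_zero_iff_dvd] at h0
    exact hnotunit (hcopr.isUnit_of_dvd' dvd_rfl h0)
  have hq0 : ((q : ℤ) : ZMod r) ≠ 0 := by
    intro h0
    rw [ZMod.intCast_zmod_eq_zero_iff_dvd] at h0
    have h6 : IsCoprime q A := hqa A har
    have h7 : (r : ℤ) ∣ A := by rw [hAdef]; exact dvd_neg.mpr dvd_rfl
    exact hnotunit (h6.isUnit_of_dvd' h0 h7)
  have hsq : ∃ x : ZMod r, x ≠ 0 ∧ ((b : ZMod r) * x ^ 2 = 1 ∨ (b : ZMod r) * x ^ 2 = -1) := by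
    rcases ZMod.pow_div_two_eq_neg_one_or_one r hb0' with h | h
    · obtain ⟨z, hz⟩ := (ZMod.euler_criterion r hb0').mpr h
      have hz0 : z ≠ 0 := by
        rintro rfl
        rw [mul_zero] at hz
        exact hb0' hz
      refine ⟨z⁻¹, inv_ne_zero hz0, Or.inl ?_⟩
      rw [hz]
      field_simp
    · have hnb : (-(b : ZMod r)) ≠ 0 := neg_ne_zero.mpr hb0'
      have h5 : (-(b : ZMod r)) ^ (r / 2) = 1 := by
        rw [hrdiv] at h ⊢
        rw [hmodd.neg_pow, h, neg_neg]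
      obtain ⟨z, hz⟩ := (ZMod.euler_criterion r hnb).mpr h5
      have hz0 : z ≠ 0 := by
        rintro rfl
        rw [mul_zero] at hz
        exact hnb hz
      refine ⟨z⁻¹, inv_ne_zero hz0, Or.inr ?_⟩
      have : (b : ZMod r) = -(z * z) := by rw [← hz, neg_neg]
      rw [this]
      field_simp
  obtain ⟨x, hx0, hx⟩ := hsq
  set u : ℤ := ((((q : ℤ) : ZMod r)⁻¹ * x).val : ℤ) with hu
  set w : ℤ := q * u with hw
  have hwx : ((w : ℤ) : ZMod r) = x := by
    rw [hw, hu]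
    push_cast
    rw [ZMod.natCast_zmod_val]
    rw [← mul_assoc, mul_inv_cancel₀ hq0, one_mul]
  have hqw : q ∣ w := Dvd.intro _ rfl
  have hAw : IsCoprime A w := by
    rw [hAdef]
    apply IsCoprime.neg_left
    have h5 : ¬ (r : ℤ) ∣ w := by
      intro h0
      rw [← ZMod.intCast_zmod_eq_zero_iff_dvd, hwx] at h0
      exact hx0 h0
    exact ((Nat.prime_iff_prime_int.mp hrp).coprime_iff_not_dvd).mpr h5
  rw [← hiv w hqw hAw b hb hcop]
  rcases hx with hx | hx
  · have h6 : (r : ℤ) ∣ b * w ^ 2 - 1 := by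
      rw [← ZMod.intCast_zmod_eq_zero_iff_dvd]
      push_cast
      rw [hwx, hx]
      ring
    have h7 : A ∣ b * w ^ 2 - (1 - A) := by
      rw [show b * w ^ 2 - (1 - A) = (b * w ^ 2 - 1) + A by ring]
      apply dvd_add _ dvd_rfl
      rw [hAdef]
      exact neg_dvd.mpr h6
    rw [hB A _ (1 - A) har (Dvd.dvd.mul_right hb _) ((dvd_sub_comm).mp har) ⟨1, 1, by ring⟩ h7]
    exact hI1 A har
  · have h6 : (r : ℤ) ∣ b * w ^ 2 + 1 := by
      rw [← ZMod.intCast_zmod_eq_zero_iff_dvd]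
      push_cast
      rw [hwx, hx]
      ring
    have h7 : A ∣ b * w ^ 2 - (A - 1) := by
      rw [show b * w ^ 2 - (A - 1) = (b * w ^ 2 + 1) - A by ring]
      apply dvd_sub _ dvd_rfl
      rw [hAdef]
      exact neg_dvd.mpr h6
    rw [hB A _ (A - 1) har (Dvd.dvd.mul_right hb _) har ⟨1, -1, by ring⟩ h7]
    exact hI2 A har

end Pool.Agent.Q295.SC
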