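import Pool.Agent.Q290.SC.Stm

set_option autoImplicit false

namespace Pool.Agent.Q295.SC

open Pool.Agent.Q290.SC Pool.Agent.H29R2.MG

theorem csp : S_IND → S_BLK → S_SYM → S_KEY → S_NUM → S_CSP := by
  intro hIND hBLK hSYM hKEY hNUM g hg Q _ _ f
  obtain ⟨n, hn', hexp⟩ : ∃ n : ℕ, 1 ≤ n ∧ ∀ x : Q, x ^ n = 1 :=
    ⟨Nat.card Q, Nat.card_pos, fun x => pow_card_eq_one'⟩
  have hn : (1 : ℤ) ≤ n := by exact_mod_cast hn'
  have hT : ∀ (v : VV g) (t : ℤ), 4 * (n : ℤ) ∣ t → f (T v t) = 1 := by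
    rintro v t ⟨l, rfl⟩
    have h1 : T v (4 * (n : ℤ) * l) = (T v (4 * l)) ^ n := by
      rw [← zpow_natCast, T_zpow]
      congr 1
      ring
    rw [h1, map_pow, hexp]
  refine ⟨4 * (n : ℤ), by omega, ?_⟩
  have hq2 : (2 : ℤ) ≤ 4 * (n : ℤ) := by omega
  obtain ⟨s, hs1, hs2, hs3⟩ := hSYM g _ hg hq2 Q f hT
  have hcomp : ∀ a b : ℤ, 4 * (n : ℤ) ∣ a - 1 → 4 * (n : ℤ) ∣ b → IsCoprime a b →
      ∃ c d : ℤ, a * d - b * c = 1 ∧ 4 * (n : ℤ) ∣ c ∧ 4 * (n : ℤ) ∣ d - 1 := by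
    rintro a b ha hb ⟨x, y, hxy⟩
    refine ⟨y * (a - 1), x + y * b, by linear_combination hxy, Dvd.dvd.mul_left ha _, ?_⟩
    have h5 : x + y * b - 1 = (-x) * (a - 1) := by linear_combination hxy
    rw [h5]
    exact Dvd.dvd.mul_left ha _
  have hij : (⟨0, by omega⟩ : Fin g) ≠ ⟨1, by omega⟩ := by
    intro h
    have := congrArg Fin.val h
    simp at this
  obtain ⟨i, j, hij⟩ : ∃ i j : Fin g, i ≠ j := ⟨_, _, hij⟩
  have hs10 : s 1 0 = 1 := by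
    rw [← hs1 i 1 0 0 1 (by norm_num) (by simp) (dvd_zero _) (dvd_zero _) (by simp)]
    have h1 : L i 1 0 0 1 (by norm_num) = 1 := by
      apply sp_ext
      intro y
      show y + y (Sum.inl i) • ((1 - 1 : ℤ) • ve i + (0 : ℤ) • vf i) +
        y (Sum.inr i) • ((0 : ℤ) • ve i + (1 - 1 : ℤ) • vf i) = y
      simp
    rw [h1, map_one]
  have h3 : ∀ a w : ℤ, 4 * (n : ℤ) ∣ a - 1 → 4 * (n : ℤ) ∣ w → IsCoprime a w →
      ∃ c : Q, ∀ b : ℤ, 4 * (n : ℤ) ∣ b → IsCoprime a b → s a b = c * s a (b * w ^ 2) := by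
    intro a w ha hw haw
    obtain ⟨u, d', h', hu, hd'⟩ := hcomp a w ha hw haw
    have h'' : a * d' - u * w = 1 := by linear_combination h'
    refine ⟨f (Lv i j hij a u w d' h''), fun b hb hab => ?_⟩
    obtain ⟨c, d, h, hc, hd⟩ := hcomp a b ha hb hab
    obtain ⟨c₂, d₂, h₂, hc₂, hd₂, e⟩ :=
      hKEY g _ Q f hT i j hij a b c d u w d' h h'' ha hb hc hd hu hw hd'
    rw [hs1 i a b c d h ha hb hc hd,
      hs1 j a (b * w ^ 2) c₂ d₂ h₂ ha (Dvd.dvd.mul_right hb _) hc₂ hd₂] at e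
    exact e
  have hall := hNUM Q n hn' hexp s hs2 hs3 h3 hs10
  intro M hM
  obtain ⟨X, hX, hfx⟩ := hIND g _ hq2 i Finset.univ (Finset.mem_univ _) M hM
    (fun k hk => absurd (Finset.mem_univ k) hk)
  have hker : KS (4 * (n : ℤ)) (Finset.univ : Finset (Fin g)) ≤ f.ker := by
    rw [KS, Subgroup.closure_le]
    rintro _ ⟨v, t, -, ht, rfl⟩
    exact hT v t ht
  have hfX : f X = 1 := hker hX
  obtain ⟨a, b, c, d, h, e, hdiv⟩ := hBLK g i (X * M) hfx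
  obtain ⟨h1, h2, h4, h5⟩ := hdiv _ (mul_mem (KS_Ga hX) hM)
  have hab : IsCoprime a b := ⟨d, -c, by linear_combination h⟩
  calc f M = f X * f M := by rw [hfX, one_mul]
    _ = f (X * M) := (map_mul f X M).symm
    _ = 1 := by rw [e, hs1 i a b c d h h1 h2 h4 h5, hall a b h1 h2 hab]

end Pool.Agent.Q295.SC
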